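import Pool.Agent.X239.PCG.PolyT
set_option autoImplicit false

/-!
# Generalized recognition of pairwise compatibility graphs is `NP`-hard

Given a graph `G` and a set `S` of non-edges of `G`, it is `NP`-hard to decide whether some pairwise
compatibility graph `PCG(T, dmin, dmax)` on the vertices of `G` contains all edges of `G` and no
pair of `S`.

The reduction is from 3-SAT. For every clause there are six vertices `a 0, …, a 5` in a cyclic
order. The nine pairs of not consecutive ones are edges, the six consecutive pairs are in `S`, so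
the distance of such a pair is short (less than `dmin`) or long (more than `dmax`). By the
four-point condition not all six pairs are short. The pairs `a 1 a 2`, `a 3 a 4`, `a 5 a 0` are
forced to be short: a pair `r s` of `S` is short if `r` and `s` are adjacent to four further
vertices `c 0, …, c 3` such that `c 0 c 2` and `c 1 c 3` are edges and the other four pairs are in
`S`; indeed, if `r s` were long, then the four pairs in `S` would be short, which is impossible. So
one of the pairs `a 0 a 1`, `a 2 a 3`, `a 4 a 5` is long. They stand for the three literals. For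
opposite literals in two clauses, the four pairs of vertices between the two pairs are edges, and
then not both pairs are long. All other pairs are free. Conversely, a satisfying assignment gives a
tree which consists of a small tree for each clause, all attached to the same vertex.
-/

namespace Pool.Agent.Results.MP_9390ab_lc.GeneralizedIsNPHard

open Pool.Agent.NPC Pool.Agent.NPC.X239PCG

/-- `T` is a tree with positive weights `w` on its edges, and `leaf` is a bijection of `V` onto the
set of the leaves (the vertices of degree one) of `T`. -/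
structure LeafTree {V W : Type} (T : SimpleGraph W) (w : Sym2 W → ℝ) (leaf : V → W) : Prop where
  tree : T.IsTree
  pos : ∀ e ∈ T.edgeSet, 0 < w e
  inj : Function.Injective leaf
  leaves : ∀ x, (∃! y, T.Adj x y) ↔ ∃ v, leaf v = x

/-- The graph `PCG(T, dmin, dmax)`: two different leaves are adjacent if and only if the sum of the
weights on the path between them is at least `dmin` and at most `dmax`. -/
def PCG {V W : Type} (T : SimpleGraph W) (w : Sym2 W → ℝ) (leaf : V → W) (dmin dmax : ℝ) :
    SimpleGraph V where
  Adj u v := u ≠ v ∧ ∃ p : T.Walk (leaf u) (leaf v), p.IsPath ∧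
    dmin ≤ (p.edges.map w).sum ∧ (p.edges.map w).sum ≤ dmax
  symm := ⟨fun u v h => by
    obtain ⟨h1, p, h2, h3, h4⟩ := h
    refine ⟨h1.symm, p.reverse, h2.reverse, ?_⟩
    rw [SimpleGraph.Walk.edges_reverse, List.map_reverse, List.sum_reverse]
    exact ⟨h3, h4⟩⟩
  loopless := ⟨fun u h => h.1 rfl⟩

/-- The question of the generalized recognition problem: there are a tree `T` whose leaves are the
vertices of `G` and `0 ≤ dmin ≤ dmax` such that `PCG(T, dmin, dmax)` contains all edges of `G` and
no pair of `S`. -/
def GeneralizedPCG {V : Type} (G : SimpleGraph V) (S : Set (Sym2 V)) : Prop :=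
  ∃ (W : Type) (_ : Finite W) (T : SimpleGraph W) (w : Sym2 W → ℝ) (leaf : V → W)
    (dmin dmax : ℝ), LeafTree T w leaf ∧ 0 ≤ dmin ∧ dmin ≤ dmax ∧
    G ≤ PCG T w leaf dmin dmax ∧ Disjoint S (PCG T w leaf dmin dmax).edgeSet

/-- the graph with the vertices `0, …, n - 1` and the edges in the list `E` -/
def graphOf (n : ℕ) (E : List (ℕ × ℕ)) : SimpleGraph (Fin n) :=
  SimpleGraph.fromRel fun u v => ((u : ℕ), (v : ℕ)) ∈ E

/-- the set of the pairs in the list `S` -/
def pairsOf (n : ℕ) (S : List (ℕ × ℕ)) : Set (Sym2 (Fin n)) :=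
  {e | ∃ u v : Fin n, e = s(u, v) ∧ ((u : ℕ), (v : ℕ)) ∈ S}

/-- The lists `E` and `S` are an instance with the vertices `0, …, n - 1`: their entries are pairs
of two different vertices, and the pairs of `S` are not edges. -/
def IsInstance (n : ℕ) (E S : List (ℕ × ℕ)) : Prop :=
  (∀ p ∈ E ++ S, p.1 < n ∧ p.2 < n ∧ p.1 ≠ p.2) ∧ pairsOf n S ⊆ (graphOf n E)ᶜ.edgeSet

theorem gen_iff {V : Type} (G : SimpleGraph V) (S : Set (Sym2 V)) :
    GeneralizedPCG G S ↔ Pool.Agent.X239.PCG.GenPCG G S := by
  constructor
  · rintro ⟨W, h1, T, w, leaf, L, U, h2, h3, h4, h5, h6⟩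
    exact ⟨W, h1, T, w, leaf, L, U, ⟨h2.tree, h2.pos, h2.inj, h2.leaves⟩, h3, h4, h5, h6⟩
  · rintro ⟨W, h1, T, w, leaf, L, U, h2, h3, h4, h5, h6⟩
    exact ⟨W, h1, T, w, leaf, L, U, ⟨h2.tree, h2.pos, h2.inj, h2.leaves⟩, h3, h4, h5, h6⟩

/-- **Generalized recognition of pairwise compatibility graphs is `NP`-hard.** (The number `n` of
vertices is at most one more than the length of the list of edges, so that it makes no difference
whether the graph is given by this list or by its adjacency matrix.) -/
theorem result : ∀ A : Set (List Bool), InNP A → ∃ f : List Bool → List Bool, PolyTime f ∧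
    ∀ s : List Bool, ∃ (n : ℕ) (E S : List (ℕ × ℕ)), f s = bits (n, E, S) ∧ IsInstance n E S ∧
      n ≤ E.length + 1 ∧ (s ∈ A ↔ GeneralizedPCG (graphOf n E) (pairsOf n S)) := by
  intro A hA
  obtain ⟨g, hg, hgp, hgA⟩ := hardPr_SAT3b A hA
  have hpoly : Poly (fun φ : List Pool.Agent.X239.PCG.Cl => (Pool.Agent.X239.PCG.nn φ,
      Pool.Agent.X239.PCG.EE φ, Pool.Agent.X239.PCG.SS φ)) := poly_inst NPC.Poly.id
  refine ⟨fun s => bits (Pool.Agent.X239.PCG.nn (g s), Pool.Agent.X239.PCG.EE (g s),
    Pool.Agent.X239.PCG.SS (g s)), PC.toPolyTime_bits hpoly g hg, fun s => ?_⟩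
  obtain ⟨hd, -, hne⟩ := hgp s
  refine ⟨_, _, _, rfl, Pool.Agent.X239.PCG.valid hd, Pool.Agent.X239.PCG.nn_le _, ?_⟩
  rw [gen_iff, hgA s]
  exact ⟨fun h => Pool.Agent.X239.PCG.gen_of_sat hd hne h,
    fun h => Pool.Agent.X239.PCG.sat_of_gen hd h⟩

end Pool.Agent.Results.MP_9390ab_lc.GeneralizedIsNPHard
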